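import Mathlib
import Pool.Agent.H534.NW.Idx2

/-!
# Primes `p_(kn)` with almost prime `p_(kn) ^ 2 - 2`, at all the places of every narrow shape

Let `F_1, ..., F_J` be irreducible non-constant integer polynomials with positive leading coefficients and
without integral zeros, none of them a translate of another one, and without a local obstruction, for instance
`X ^ 2 - 2`.  For all `q`, `m` and every residue class `e` modulo `q` we consider the primes `p = p_i` with index
`i ≡ e` modulo `q` such that the `m + 1` consecutive primes `p_i, ..., p_(i+m)` lie in an interval of bounded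
length and all the values `F_j(p_(i+u))` have a bounded number of prime factors.  Those in `(x, 2 x]` contain
constellations `n, n + D b_1, ..., n + D b_k` of EVERY shape `b_1, ..., b_k`, many of them for a positive
proportion of the multiples `D = W d`, `d ≤ X`, for all `X` from a power of `log x` up to
`(x / (W b_j)) ^ (1 / 3)`.  The modulus `W = WS σ b x` is small: it is the product of the primes
`p ≤ (log x) ^ (1 - σ)` such that `p ≤ log log x` or two of the numbers `0, b_1, ..., b_k` are congruent modulo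
`p`.

For `q = n z!` and `e = 0` we get the primes `p = p_(kn)` of the problem for which `2 k + 1` has no prime factor up
to `z` and `p ^ 2 - 2` is almost prime (part (2) of the theorem).

Proof.  `Pool.Agent.H534.NW`: the relative multidimensional Szemerédi theorem for shapes of polynomial size, by
densification and the linear forms conditions for a majorant of Selberg type; since `W` is free of most primes,
the correlations are only controlled outside of few positions, by a large deviation inequality for the primes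
dividing collisions.  It is applied to a dense subset of the strings of primes with almost prime values of the
library (a Maynard-Tao theorem).
-/

set_option autoImplicit false

open Finset Filter Polynomial

namespace Pool.Agent.Results.MP_c971ef_nt.SquaresAtEveryShape

open Pool.Agent.H534.NW (WS Shapes Run pr)

/-- irreducible non-constant polynomials with positive leading coefficients and without integral zeros, none of
them a translate of another one, such that for every prime `p` there is an `n` such that `p` divides neither `n`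
nor a value at `n` -/
structure Family {J : Type} (F : J → ℤ[X]) : Prop where
  irr : ∀ j, Irreducible (F j)
  deg : ∀ j, 0 < (F j).natDegree
  lead : ∀ j, 0 < (F j).leadingCoeff
  nozero : ∀ j (n : ℤ), (F j).eval n ≠ 0
  translate : ∀ i j, i ≠ j → ∀ s : ℤ, (F i).comp (X + C s) ≠ F j
  adm : ∀ p : ℕ, p.Prime → ∃ n : ℤ, ¬ (p : ℤ) ∣ n ∧ ∀ j, ¬ (p : ℤ) ∣ (F j).eval n

/-- all the values of the polynomials at `p` have at most `r` prime factors, counted with multiplicity, all of them
at least `y` -/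
def AlmostPrimes {J : Type} (F : J → ℤ[X]) (r : ℕ) (y : ℝ) (p : ℕ) : Prop :=
  ∀ j, ((F j).eval (p : ℤ)).natAbs.primeFactorsList.length ≤ r ∧
    ∀ u : ℕ, u.Prime → (u : ℤ) ∣ (F j).eval (p : ℤ) → y ≤ (u : ℝ)

/-- `p` is the prime `p_(jn)` for a `j ≥ 1` such that `2 j + 1` has no prime factor up to `z`, and `p ^ 2 - 2` has at
most `r` prime factors, all of them at least `y` -/
def Multiple (n z r : ℕ) (y : ℝ) (p : ℕ) : Prop := p.Prime ∧
  (∃ j : ℕ, 1 ≤ j ∧ p = pr (j * n) ∧ ∀ l : ℕ, l.Prime → l ≤ z → ¬ l ∣ 2 * j + 1) ∧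
  (p ^ 2 - 2).primeFactorsList.length ≤ r ∧ ∀ u : ℕ, u.Prime → u ∣ p ^ 2 - 2 → y ≤ (u : ℝ)

open Classical in
/-- **Primes with index in a class modulo `q` and almost prime values of polynomials, at every narrow shape.**
(1) Let `F` be a `Family`, for instance `X ^ 2 - 2`, let `q ≥ 1` and `m ≥ 0`. There are `r`, `B`, `K` and `θ > 0` such
that for all `k ≥ 1` there are `c > 0`, `0 < σ ≤ 1 / 2` and `L` such that, for all large `x` and all `e`, the set of
the primes `p = p_i` of `(x, 2 x]` such that `i ≡ e` modulo `q`, `p_(i+m) ≤ p_i + K` and all the values of the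
polynomials at `p_i, ..., p_(i+m)` have at most `r` prime factors, all at least `x ^ θ`, has the property
`Shapes k B c σ L x`: for every `X ≥ (log x) ^ L` and ALL distinct `b_1, ..., b_k ≥ 1` with `b_j W X ^ 3 ≤ x`,
`W = WS σ b x`, at least `c X` of the `d ≤ X` are such that for at least `c x / (log x) ^ (B (k + 1))` elements `n` of
the set all the `n + W d b_j` are elements of the set.
(2) For all `n ≥ 1` and `z` the same is true for the set of the primes `p = p_(jn)` of `(x, 2 x]` for which `2 j + 1`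
has no prime factor up to `z` and `p ^ 2 - 2` has at most `r` prime factors, all at least `x ^ θ`. -/
theorem result :
    (∀ (J : Type) (_ : Fintype J) (F : J → ℤ[X]), Family F → ∀ q m : ℕ, 1 ≤ q →
      ∃ (r B K : ℕ) (θ : ℝ), 0 < θ ∧ ∀ k : ℕ, 1 ≤ k → ∃ c σ : ℝ, 0 < c ∧ 0 < σ ∧ σ ≤ 1 / 2 ∧ ∃ L : ℕ,
      ∀ᶠ x : ℕ in atTop, ∀ e : ℕ, Shapes k B c σ L x
        ((Ioc x (2 * x)).filter (Run q e m K (AlmostPrimes F r ((x : ℝ) ^ θ))))) ∧
    (∀ n z : ℕ, 1 ≤ n → ∃ (r B : ℕ) (θ : ℝ), 0 < θ ∧ ∀ k : ℕ, 1 ≤ k → ∃ c σ : ℝ, 0 < c ∧ 0 < σ ∧ σ ≤ 1 / 2 ∧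
      ∃ L : ℕ, ∀ᶠ x : ℕ in atTop, Shapes k B c σ L x ((Ioc x (2 * x)).filter (Multiple n z r ((x : ℝ) ^ θ)))) := by
  classical
  have h1 : ∀ (J : Type) (_ : Fintype J) (F : J → ℤ[X]), Family F → ∀ q m : ℕ, 1 ≤ q →
      ∃ (r B K : ℕ) (θ : ℝ), 0 < θ ∧ ∀ k : ℕ, 1 ≤ k → ∃ c σ : ℝ, 0 < c ∧ 0 < σ ∧ σ ≤ 1 / 2 ∧ ∃ L : ℕ,
      ∀ᶠ x : ℕ in atTop, ∀ e : ℕ, Shapes k B c σ L x
        ((Ioc x (2 * x)).filter (Run q e m K (AlmostPrimes F r ((x : ℝ) ^ θ)))) := by
    intro J _ F hF q m hq
    obtain ⟨r, B, K, θ, hθ, h⟩ := Pool.Agent.H534.NW.runF F ⟨hF.irr, hF.deg, hF.lead, hF.nozero, hF.translate,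
      hF.adm⟩ q m hq
    refine ⟨r, B, K, θ, hθ, fun k hk => ?_⟩
    obtain ⟨c, σ, hc, hσ, hσ2, L, hev⟩ := h k hk
    refine ⟨c, σ, hc, hσ, hσ2, L, ?_⟩
    filter_upwards [hev, eventually_ge_atTop 3] with x hx hx3 e
    refine (hx e).mono hx3 le_rfl le_rfl (fun p hp => ?_)
    rw [mem_filter] at hp ⊢
    obtain ⟨hp1, hp2, hp3, hp4⟩ := hp
    exact ⟨hp1, hp2, hp3, fun u hu => ⟨(hp4 u hu).1, (hp4 u hu).2.2⟩⟩
  refine ⟨h1, fun n z hn => ?_⟩
  obtain ⟨f, hf⟩ : ∃ f : ℤ[X], f = Pool.Agent.TH464.PW.quad 1 0 (-2) := ⟨_, rfl⟩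
  have hfe : ∀ t : ℤ, f.eval t = t ^ 2 - 2 := by
    intro t
    rw [hf, Pool.Agent.TH464.PW.quad_eval]
    ring
  have hsq : ¬ IsSquare ((0 : ℤ) ^ 2 - 4 * 1 * (-2)) := by
    rintro ⟨t, ht⟩
    have h1 : t * t = 8 := by linarith
    have h2 : t ≤ 2 := by nlinarith
    have h3 : -2 ≤ t := by nlinarith
    interval_cases t <;> omega
  have hFam : Family (fun _ : Unit => f) := by
    refine ⟨fun _ => ?_, fun _ => ?_, fun _ => ?_, fun _ t h0 => ?_, fun i j hij => absurd (Subsingleton.elim i j) hij,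
      fun p hp => ?_⟩
    · rw [hf]
      exact Pool.Agent.TH464.PW.quad_irr 1 0 (-2) one_ne_zero (fun p hp h => hp.one_lt.ne' (by
        have := Int.eq_one_of_dvd_one (by positivity) h.1
        exact_mod_cast this)) hsq
    · rw [hf, Pool.Agent.TH464.PW.quad_deg 1 0 (-2) one_ne_zero]
      norm_num
    · rw [hf, Pool.Agent.TH464.PW.quad_lead 1 0 (-2) one_ne_zero]
      norm_num
    · rw [hfe] at h0
      apply hsq
      exact ⟨2 * t, by linarith⟩
    · refine ⟨1, fun h => ?_, fun _ h => ?_⟩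
      · have := Int.le_of_dvd one_pos h
        have h2 : (2 : ℤ) ≤ p := by exact_mod_cast hp.two_le
        omega
      · rw [hfe] at h
        norm_num at h
        have h3 : (p : ℤ) ∣ 1 := by
          simpa using h
        have := Int.le_of_dvd one_pos h3
        have h2 : (2 : ℤ) ≤ p := by exact_mod_cast hp.two_le
        omega
  obtain ⟨r, B, K, θ, hθ, h⟩ := h1 Unit inferInstance _ hFam (n * z.factorial) 0
    (Nat.mul_pos (by omega) (Nat.factorial_pos z))
  refine ⟨r, B, θ, hθ, fun k hk => ?_⟩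
  obtain ⟨c, σ, hc, hσ, hσ2, L, hev⟩ := h k hk
  refine ⟨c, σ, hc, hσ, hσ2, L, ?_⟩
  filter_upwards [hev, eventually_ge_atTop 3] with x hx hx3
  refine (hx 0).mono hx3 le_rfl le_rfl (fun p hp => ?_)
  rw [mem_filter] at hp ⊢
  obtain ⟨hp1, hp2, hp3, hp4⟩ := hp
  have hpi := Pool.Agent.H534.NW.pr_index hp2
  have h4 := (hp4 0 le_rfl).2 ()
  rw [add_zero, hpi, hfe] at h4
  obtain ⟨g1, g2⟩ := h4
  have hp22 : 2 ≤ p ^ 2 := by nlinarith [hp2.two_le]
  have hcast : ((p ^ 2 - 2 : ℕ) : ℤ) = (p : ℤ) ^ 2 - 2 := by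
    rw [Nat.cast_sub hp22]
    push_cast
    ring
  have habs : ((p : ℤ) ^ 2 - 2).natAbs = p ^ 2 - 2 := by
    rw [← hcast, Int.natAbs_natCast]
  obtain ⟨j, hj⟩ : n * z.factorial ∣ Nat.primeCounting p := (Nat.modEq_zero_iff_dvd).1 hp3
  have hπ : 0 < Nat.primeCounting p := by
    unfold Nat.primeCounting Nat.primeCounting'
    rw [Nat.count_succ, if_pos hp2]
    omega
  refine ⟨hp1, hp2, ⟨z.factorial * j, ?_, ?_, fun l hl hlz hd => ?_⟩, by rwa [habs] at g1, fun u hu hd => ?_⟩
  · rw [hj] at hπ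
    have := pos_of_mul_pos_right (by simpa [mul_assoc] using hπ : 0 < n * (z.factorial * j)) (Nat.zero_le _)
    omega
  · rw [show z.factorial * j * n = n * z.factorial * j by ring, ← hj, hpi]
  · have h5 : l ∣ z.factorial := (hl.dvd_factorial).2 hlz
    have h6 : l ∣ 2 * (z.factorial * j) := (h5.mul_right j).mul_left 2
    have h7 : l ∣ 1 := (Nat.dvd_add_right h6).1 hd
    exact hl.one_lt.ne' (Nat.dvd_one.1 h7)
  · apply g2 u hu
    rw [← hcast]
    exact_mod_cast hd

end Pool.Agent.Results.MP_c971ef_nt.SquaresAtEveryShape
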